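import Pool.Agent.Lib_helper99.RT.C

/-!
# Points of order ten and twelve: the rational parameters, the statements
-/

set_option autoImplicit false
set_option linter.unusedSectionVars false

namespace Pool.Agent.RT

open Pool.Agent.FK4 (root_rat val_not val_dvd exists_prime dvd_one_absurd indep3_rat)

/-- the exponents of the third number and of the denominator -/
lemma pair_zero {a b : ℤ} (hco : IsCoprime a b) (hb : 0 < b) (hC0 : 2 * a - b ≠ 0)
    (hD0 : a ^ 2 - 3 * a * b + b ^ 2 ≠ 0)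
    (hD : a ^ 2 - 3 * a * b + b ^ 2 = 1 ∨ a ^ 2 - 3 * a * b + b ^ 2 = -1)
    (c1 : (2 * a - b).natAbs ≠ 1) (c2 : (2 * a - b).natAbs ≠ 2) (b1 : b ≠ 1) (b2 : b ≠ 2)
    {n o s : ℤ} (h : ((2 * a - b : ℤ) : ℚ) ^ n * ((a ^ 2 - 3 * a * b + b ^ 2 : ℤ) : ℚ) ^ o *
      (b : ℚ) ^ s = 1) : n = 0 ∧ s = 0 := by
  have hDr : ∀ r : ℕ, r.Prime → ¬ (r : ℤ) ∣ a ^ 2 - 3 * a * b + b ^ 2 := by
    intro r hr g
    rcases hD with e | e
    · rw [e] at g; exact dvd_one_absurd hr g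
    · rw [e] at g; exact dvd_one_absurd hr (by simpa using g)
  -- one exponent, given a private prime
  have kC : ∀ r : ℕ, r.Prime → (r : ℤ) ∣ 2 * a - b → ¬ (r : ℤ) ∣ b → n = 0 := by
    intro r hr g1 g2
    refine key6 hr (A := 2 * a - b) (B := a ^ 2 - 3 * a * b + b ^ 2) (C := b) (D := 1) (E := 1)
      (F := 1) (m := o) (n := s) (o := 0) (s := 0) (q := 0) hC0 hD0 hb.ne' one_ne_zero
      one_ne_zero one_ne_zero ?_ g1 (hDr r hr) g2 (fun g => dvd_one_absurd hr g)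
      (fun g => dvd_one_absurd hr g) (fun g => dvd_one_absurd hr g)
    rw [← h]; simp
  have kE : ∀ r : ℕ, r.Prime → (r : ℤ) ∣ b → ¬ (r : ℤ) ∣ 2 * a - b → s = 0 := by
    intro r hr g1 g2
    refine key6 hr (A := b) (B := a ^ 2 - 3 * a * b + b ^ 2) (C := 2 * a - b) (D := 1) (E := 1)
      (F := 1) (m := o) (n := n) (o := 0) (s := 0) (q := 0) hb.ne' hD0 hC0 one_ne_zero
      one_ne_zero one_ne_zero ?_ g1 (hDr r hr) g2 (fun g => dvd_one_absurd hr g)
      (fun g => dvd_one_absurd hr g) (fun g => dvd_one_absurd hr g)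
    rw [← h]; simp; ring
  -- the prime two, if the other exponent is zero
  have kC2 : s = 0 → (2 : ℤ) ∣ 2 * a - b → n = 0 := by
    intro hs g1
    rw [hs, zpow_zero, mul_one] at h
    refine key6 Nat.prime_two (A := 2 * a - b) (B := a ^ 2 - 3 * a * b + b ^ 2) (C := 1) (D := 1)
      (E := 1) (F := 1) (m := o) (n := 0) (o := 0) (s := 0) (q := 0) hC0 hD0 one_ne_zero
      one_ne_zero one_ne_zero one_ne_zero ?_ (by exact_mod_cast g1) (hDr 2 Nat.prime_two)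
      (fun g => dvd_one_absurd Nat.prime_two g) (fun g => dvd_one_absurd Nat.prime_two g)
      (fun g => dvd_one_absurd Nat.prime_two g) (fun g => dvd_one_absurd Nat.prime_two g)
    rw [← h]; simp
  have kE2 : n = 0 → (2 : ℤ) ∣ b → s = 0 := by
    intro hn g1
    rw [hn, zpow_zero, one_mul] at h
    refine key6 Nat.prime_two (A := b) (B := a ^ 2 - 3 * a * b + b ^ 2) (C := 1) (D := 1)
      (E := 1) (F := 1) (m := o) (n := 0) (o := 0) (s := 0) (q := 0) hb.ne' hD0 one_ne_zero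
      one_ne_zero one_ne_zero one_ne_zero ?_ (by exact_mod_cast g1) (hDr 2 Nat.prime_two)
      (fun g => dvd_one_absurd Nat.prime_two g) (fun g => dvd_one_absurd Nat.prime_two g)
      (fun g => dvd_one_absurd Nat.prime_two g) (fun g => dvd_one_absurd Nat.prime_two g)
    rw [← h]; simp [mul_comm]
  rcases Int.even_or_odd b with hbe | hbo
  · have g2b : (2 : ℤ) ∣ b := hbe.two_dvd
    have g2c : (2 : ℤ) ∣ 2 * a - b := dvd_sub (dvd_mul_right 2 a) g2b
    rcases Nat.eq_two_pow_or_exists_odd_prime_and_dvd (2 * a - b).natAbs with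
      ⟨j, hj⟩ | ⟨r, hr, hd, ho⟩
    · rcases Nat.eq_two_pow_or_exists_odd_prime_and_dvd b.natAbs with ⟨i, hi⟩ | ⟨r, hr, hd, ho⟩
      · exfalso
        have ha2 : ¬ (2 : ℤ) ∣ a := fun g => npr hco Nat.prime_two
          (by exact_mod_cast g) (by exact_mod_cast g2b)
        rcases j with _ | j
        · rw [pow_zero] at hj; exact c1 hj
        rcases i with _ | i
        · rw [pow_zero] at hi; apply b1; omega
        rcases j with _ | j
        · rw [zero_add, pow_one] at hj; exact c2 hj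
        rcases i with _ | i
        · rw [zero_add, pow_one] at hi; apply b2; omega
        rw [pow_succ, pow_succ] at hi hj
        omega
      · have hd' : (r : ℤ) ∣ b := Int.natCast_dvd.mpr hd
        have h2r : ¬ (r : ℤ) ∣ 2 := by
          apply two_not hr
          rintro rfl
          exact absurd ho (by decide)
        have hs := kE r hr hd' (fun g => C_E hco hr h2r g hd')
        exact ⟨kC2 hs g2c, hs⟩
    · have hd' : (r : ℤ) ∣ 2 * a - b := Int.natCast_dvd.mpr hd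
      have h2r : ¬ (r : ℤ) ∣ 2 := by
        apply two_not hr
        rintro rfl
        exact absurd ho (by decide)
      have hn := kC r hr hd' (C_E hco hr h2r hd')
      exact ⟨hn, kE2 hn g2b⟩
  · obtain ⟨c, hc⟩ := hbo
    have h2b : ∀ r : ℕ, r.Prime → (r : ℤ) ∣ b → ¬ (r : ℤ) ∣ 2 := by
      intro r hr g
      apply two_not hr
      rintro rfl
      have g' : (2 : ℤ) ∣ b := by exact_mod_cast g
      omega
    have h2c : ∀ r : ℕ, r.Prime → (r : ℤ) ∣ 2 * a - b → ¬ (r : ℤ) ∣ 2 := by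
      intro r hr g
      apply two_not hr
      rintro rfl
      have g' : (2 : ℤ) ∣ 2 * a - b := by exact_mod_cast g
      omega
    obtain ⟨r, hr, hd⟩ := exists_prime c1
    obtain ⟨r', hr', hd'⟩ := exists_prime (z := b) (by omega)
    exact ⟨kC r hr hd (C_E hco hr (h2c r hr hd) hd),
      kE r' hr' hd' (fun g => C_E hco hr' (h2b r' hr' hd') g hd')⟩

/-- the numbers of the curves with a point of order ten -/
theorem indep10_core {t : ℚ} (h0 : t ≠ 0) (h1 : t ≠ 1) (h12 : 2 * t ≠ 1)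
    (e1 : t ≠ 2) (e2 : 3 * t ≠ 1) (e3 : t ≠ -1) (e4 : 3 * t ≠ 2) (e5 : t ≠ 3)
    (e6 : 5 * t ≠ 2) (e7 : 2 * t ≠ 5) (e8 : 8 * t ≠ 3) (e9 : 2 * t ≠ -1) (e10 : 4 * t ≠ 3)
    (e11 : 2 * t ≠ 3) (e12 : 4 * t ≠ 1) (l m n o : ℤ)
    (h : t ^ l * (t - 1) ^ m * (2 * t - 1) ^ n * (t ^ 2 - 3 * t + 1) ^ o = 1) :
    l = 0 ∧ m = 0 ∧ n = 0 ∧ o = 0 := by
  obtain ⟨a, b, hb, hco, ht⟩ : ∃ a b : ℤ, 0 < b ∧ IsCoprime a b ∧ t = a / b :=
    ⟨t.num, t.den, by exact_mod_cast t.pos, by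
      rw [Int.isCoprime_iff_gcd_eq_one]; exact t.reduced, (Rat.num_div_den t).symm⟩
  have hbQ : (b : ℚ) ≠ 0 := by exact_mod_cast hb.ne'
  have cl : ∀ x y : ℤ, (x : ℚ) * t ≠ y → x * a ≠ y * b := by
    intro x y hxy hxy'
    apply hxy
    rw [ht, ← mul_div_assoc, div_eq_iff hbQ]
    exact_mod_cast hxy'
  have ha : a ≠ 0 := by
    have := cl 1 0 (by simpa using h0)
    omega
  have hab : a ≠ b := by
    have := cl 1 1 (by simpa using h1)
    omega
  have h2ab : 2 * a ≠ b := by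
    have := cl 2 1 (by simpa using h12)
    omega
  have h3ab : 3 * a ≠ b := by
    have := cl 3 1 (by simpa using e2)
    omega
  have ha2b : a ≠ 2 * b := by
    have := cl 1 2 (by simpa using e1)
    omega
  have ha3b : a ≠ 3 * b := by
    have := cl 1 3 (by simpa using e5)
    omega
  have h52 : 5 * a ≠ 2 * b := cl 5 2 (by simpa using e6)
  have h25 : 2 * a ≠ 5 * b := cl 2 5 (by simpa using e7)
  have h83 : 8 * a ≠ 3 * b := cl 8 3 (by simpa using e8)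
  have hA0 : a - b ≠ 0 := sub_ne_zero.mpr hab
  have hC0 : 2 * a - b ≠ 0 := sub_ne_zero.mpr h2ab
  have hD0 : a ^ 2 - 3 * a * b + b ^ 2 ≠ 0 := by
    intro hh
    have e : (2 * a - 3 * b) ^ 2 = 5 * b ^ 2 := by linear_combination 4 * hh
    have h5 : Prime (5 : ℤ) := by norm_num
    have d1 : (5 : ℤ) ∣ (2 * a - 3 * b) ^ 2 := ⟨b ^ 2, e⟩
    obtain ⟨c, hc⟩ := h5.dvd_of_dvd_pow d1
    have d2 : (5 : ℤ) ∣ b ^ 2 := ⟨c ^ 2, by
      rw [hc] at e; linarith⟩
    obtain ⟨c', hc'⟩ := h5.dvd_of_dvd_pow d2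
    have d3 : (5 : ℤ) ∣ a := by omega
    exact npr hco (r := 5) (by norm_num) (by exact_mod_cast d3) (by
      exact_mod_cast (⟨c', hc'⟩ : (5 : ℤ) ∣ b))
  have k1 : t - 1 = (a - b : ℤ) / b := by rw [ht]; push_cast; field_simp
  have k2 : 2 * t - 1 = (2 * a - b : ℤ) / b := by rw [ht]; push_cast; field_simp
  have k3 : t ^ 2 - 3 * t + 1 = (a ^ 2 - 3 * a * b + b ^ 2 : ℤ) / (b * b) := by
    rw [ht]; push_cast; field_simp
  have hH : (a : ℚ) ^ l * ((a - b : ℤ) : ℚ) ^ m * ((2 * a - b : ℤ) : ℚ) ^ n *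
      ((a ^ 2 - 3 * a * b + b ^ 2 : ℤ) : ℚ) ^ o * (b : ℚ) ^ (-(l + m + n + 2 * o)) = 1 := by
    rw [k1, k2, k3, ht, div_zpow, div_zpow, div_zpow, div_zpow, mul_zpow] at h
    have e2 : ∀ j : ℤ, (b : ℚ) ^ (2 * j) = (b : ℚ) ^ j * (b : ℚ) ^ j := fun j => by
      rw [two_mul, zpow_add₀ hbQ]
    rw [zpow_neg, zpow_add₀ hbQ, zpow_add₀ hbQ, zpow_add₀ hbQ, e2]
    rw [← h]
    have a1 := zpow_ne_zero m hbQ
    have a2 := zpow_ne_zero n hbQ
    have a3 := zpow_ne_zero l hbQ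
    have a4 := zpow_ne_zero o hbQ
    field_simp
  by_cases hD : (a ^ 2 - 3 * a * b + b ^ 2).natAbs = 1
  · have hD' := one_of hD
    obtain ⟨r, hr, hd⟩ := exists_prime (D_A hb hD' hab h2ab h3ab)
    have hl : l = 0 := by
      refine key6 hr (A := a) (B := a - b) (C := 2 * a - b) (D := a ^ 2 - 3 * a * b + b ^ 2)
        (E := b) (F := 1) (m := m) (n := n) (o := o) (s := -(l + m + n + 2 * o)) (q := 0)
        ha hA0 hC0 hD0 hb.ne' one_ne_zero ?_ hd (a_B hco hr hd) (a_C hco hr hd) (a_D hco hr hd)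
        (fun g => npr hco hr hd g) (fun g => dvd_one_absurd hr g)
      rw [← hH]; simp
    obtain ⟨r, hr, hd⟩ := exists_prime (D_B hb hD' ha h2ab ha2b)
    have hm : m = 0 := by
      refine key6 hr (A := a - b) (B := a) (C := 2 * a - b) (D := a ^ 2 - 3 * a * b + b ^ 2)
        (E := b) (F := 1) (m := l) (n := n) (o := o) (s := -(l + m + n + 2 * o)) (q := 0)
        hA0 ha hC0 hD0 hb.ne' one_ne_zero ?_ hd (fun g => a_B hco hr g hd) (B_C hco hr hd)
        (B_D hco hr hd) (B_E hco hr hd) (fun g => dvd_one_absurd hr g)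
      rw [zpow_zero, mul_one]
      rw [← hH]; ring
    subst hl hm
    rw [zpow_zero, zpow_zero, one_mul, one_mul] at hH
    obtain ⟨hn, hs⟩ := pair_zero hco hb hC0 hD0 hD' (D_C hb hD' ha hab h3ab h52)
      (D_C2 hb hD' h83) (D_1 hD' ha hab ha3b ha2b) (D_2 hD' h2ab h25) hH
    exact ⟨rfl, rfl, hn, by omega⟩
  · obtain ⟨r, hr, hd⟩ := exists_prime hD
    have ho : o = 0 := by
      refine key6 hr (A := a ^ 2 - 3 * a * b + b ^ 2) (B := a) (C := a - b) (D := 2 * a - b)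
        (E := b) (F := 1) (m := l) (n := m) (o := n) (s := -(l + m + n + 2 * o)) (q := 0)
        hD0 ha hA0 hC0 hb.ne' one_ne_zero ?_ hd (fun g => a_D hco hr g hd)
        (fun g => B_D hco hr g hd) (fun g => C_D hco hr g hd) (D_E hco hr hd)
        (fun g => dvd_one_absurd hr g)
      rw [zpow_zero, mul_one]
      rw [← hH]; ring
    subst ho
    rw [zpow_zero, mul_one] at h
    obtain ⟨x1, x2, x3⟩ := indep3_rat h0 h1 (by rintro rfl; norm_num at h12)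
      ⟨e1, e3, by rintro rfl; norm_num at e2, by rintro rfl; norm_num at e4,
        by rintro rfl; norm_num at e11, by rintro rfl; norm_num at e9,
        by rintro rfl; norm_num at e12, by rintro rfl; norm_num at e10⟩ l m n h
    exact ⟨x1, x2, x3, rfl⟩

/-- **order ten** -/
theorem indep10_rat {t : ℚ} (h0 : t ≠ 0) (h1 : t ≠ 1) (h12 : 2 * t ≠ 1) :
    t = 2 ∨ 3 * t = 1 ∨ t = -1 ∨ 3 * t = 2 ∨ t = 3 ∨ 5 * t = 2 ∨ 2 * t = 5 ∨ 8 * t = 3 ∨
      2 * t = -1 ∨ 4 * t = 3 ∨ 2 * t = 3 ∨ 4 * t = 1 ∨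
      ∀ l m n o : ℤ, t ^ l * (t - 1) ^ m * (2 * t - 1) ^ n * (t ^ 2 - 3 * t + 1) ^ o = 1 →
        l = 0 ∧ m = 0 ∧ n = 0 ∧ o = 0 := by
  by_contra hne
  simp only [not_or] at hne
  obtain ⟨e1, e2, e3, e4, e5, e6, e7, e8, e9, e10, e11, e12, hI⟩ := hne
  exact hI (indep10_core h0 h1 h12 e1 e2 e3 e4 e5 e6 e7 e8 e9 e10 e11 e12)

/-- **order twelve** -/
theorem indep12_rat {t : ℚ} (h0 : t ≠ 0) (h1 : t ≠ 1) (h12 : 2 * t ≠ 1) :
    t = -1 ∨ t = 2 ∨ 2 * t = -1 ∨ 2 * t = 3 ∨ 3 * t = 1 ∨ 3 * t = 2 ∨ 4 * t = 1 ∨ 4 * t = 3 ∨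
      ∀ l m n o q : ℤ, t ^ l * (t - 1) ^ m * (2 * t - 1) ^ n * (2 * t ^ 2 - 2 * t + 1) ^ o *
        (3 * t ^ 2 - 3 * t + 1) ^ q = 1 → l = 0 ∧ m = 0 ∧ n = 0 ∧ o = 0 ∧ q = 0 := by
  by_contra hne
  simp only [not_or] at hne
  obtain ⟨e1, e2, e3, e4, e5, e6, e7, e8, hI⟩ := hne
  exact hI (indep12_core h0 h1 h12 e1 e2 e3 e4 e5 e6 e7 e8)

end Pool.Agent.RT
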