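import Pool.Agent.Lib_helper24.FAM.Rt

/-!
# Multiplicative independence over the rationals, points of order ten and twelve
-/

set_option autoImplicit false
set_option linter.unusedSectionVars false

namespace Pool.Agent.RT

open Pool.Agent.FK4 (root_rat val_not val_dvd exists_prime dvd_one_absurd indep3_rat)

/-- a prime which divides only one of six numbers -/
lemma key6 {r : ℕ} (hr : r.Prime) {A B C D E F : ℤ} (hA0 : A ≠ 0) (hB0 : B ≠ 0) (hC0 : C ≠ 0)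
    (hD0 : D ≠ 0) (hE0 : E ≠ 0) (hF0 : F ≠ 0) {l m n o s q : ℤ}
    (h : (A : ℚ) ^ l * (B : ℚ) ^ m * (C : ℚ) ^ n * (D : ℚ) ^ o * (E : ℚ) ^ s * (F : ℚ) ^ q = 1)
    (hA : (r : ℤ) ∣ A) (hB : ¬ (r : ℤ) ∣ B) (hC : ¬ (r : ℤ) ∣ C) (hD : ¬ (r : ℤ) ∣ D)
    (hE : ¬ (r : ℤ) ∣ E) (hF : ¬ (r : ℤ) ∣ F) : l = 0 := by
  have : Fact r.Prime := ⟨hr⟩
  have a0 : (A : ℚ) ≠ 0 := by exact_mod_cast hA0
  have b0 : (B : ℚ) ≠ 0 := by exact_mod_cast hB0
  have c0 : (C : ℚ) ≠ 0 := by exact_mod_cast hC0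
  have d0 : (D : ℚ) ≠ 0 := by exact_mod_cast hD0
  have e0 : (E : ℚ) ≠ 0 := by exact_mod_cast hE0
  have f0 : (F : ℚ) ≠ 0 := by exact_mod_cast hF0
  have z1 := zpow_ne_zero l a0
  have z2 := zpow_ne_zero m b0
  have z3 := zpow_ne_zero n c0
  have z4 := zpow_ne_zero o d0
  have z5 := zpow_ne_zero s e0
  have z6 := zpow_ne_zero q f0
  have h1 := congrArg (padicValRat r) h
  rw [padicValRat.mul (by positivity) z6, padicValRat.mul (by positivity) z5,
    padicValRat.mul (by positivity) z4, padicValRat.mul (by positivity) z3,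
    padicValRat.mul z1 z2, padicValRat.zpow, padicValRat.zpow, padicValRat.zpow,
    padicValRat.zpow, padicValRat.zpow, padicValRat.zpow,
    val_not hB, val_not hC, val_not hD, val_not hE, val_not hF, padicValRat.one] at h1
  simp only [mul_zero, add_zero] at h1
  rcases mul_eq_zero.mp h1 with h2 | h2
  · exact h2
  · exact absurd h2 (val_dvd hr hA0 hA)

lemma npr {a b : ℤ} (hco : IsCoprime a b) {r : ℕ} (hr : r.Prime) (g1 : (r : ℤ) ∣ a)
    (g2 : (r : ℤ) ∣ b) : False := by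
  obtain ⟨u, v, huv⟩ := hco
  apply dvd_one_absurd hr
  rw [← huv]
  exact dvd_add (dvd_mul_of_dvd_right g1 u) (dvd_mul_of_dvd_right g2 v)

/-- a prime dividing two of the five numbers is `2` -/
lemma npr' {a b : ℤ} (hco : IsCoprime a b) {r : ℕ} (hr : r.Prime) {x y u v u' v' : ℤ}
    (hx : (r : ℤ) ∣ x) (hy : (r : ℤ) ∣ y) (n : ℕ) (h1 : u * x + v * y = a ^ n)
    (h2 : u' * x + v' * y = b ^ n) : False := by
  have hri : Prime (r : ℤ) := Nat.prime_iff_prime_int.mp hr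
  have e1 : (r : ℤ) ∣ a ^ n := by
    rw [← h1]; exact dvd_add (dvd_mul_of_dvd_right hx u) (dvd_mul_of_dvd_right hy v)
  have e2 : (r : ℤ) ∣ b ^ n := by
    rw [← h2]; exact dvd_add (dvd_mul_of_dvd_right hx u') (dvd_mul_of_dvd_right hy v')
  exact npr hco hr (hri.dvd_of_dvd_pow e1) (hri.dvd_of_dvd_pow e2)

lemma two_of {a b : ℤ} (hco : IsCoprime a b) {r : ℕ} (hr : r.Prime) {x y u v u' v' k : ℤ}
    (hx : (r : ℤ) ∣ x) (hy : (r : ℤ) ∣ y) (n : ℕ) (h1 : u * x + v * y = k * a ^ n)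
    (h2 : u' * x + v' * y = k * b ^ n) : (r : ℤ) ∣ k := by
  have hri : Prime (r : ℤ) := Nat.prime_iff_prime_int.mp hr
  have e1 : (r : ℤ) ∣ k * a ^ n := by
    rw [← h1]; exact dvd_add (dvd_mul_of_dvd_right hx u) (dvd_mul_of_dvd_right hy v)
  have e2 : (r : ℤ) ∣ k * b ^ n := by
    rw [← h2]; exact dvd_add (dvd_mul_of_dvd_right hx u') (dvd_mul_of_dvd_right hy v')
  rcases hri.dvd_or_dvd e1 with h3 | h3
  · exact h3
  rcases hri.dvd_or_dvd e2 with h4 | h4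
  · exact h4
  exact (npr hco hr (hri.dvd_of_dvd_pow h3) (hri.dvd_of_dvd_pow h4)).elim

end Pool.Agent.RT
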