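import Pool.Agent.Lib_helper99.RT.A

/-!
# Points of order twelve: the rational parameters
-/

set_option autoImplicit false
set_option linter.unusedSectionVars false

namespace Pool.Agent.RT

open Pool.Agent.FK4 (root_rat val_not val_dvd exists_prime dvd_one_absurd indep3_rat)

section

variable {a b : ℤ} (hco : IsCoprime a b) {r : ℕ} (hr : r.Prime)

include hco hr

lemma D_a (hd : (r : ℤ) ∣ 2 * a ^ 2 - 2 * a * b + b ^ 2) : ¬ (r : ℤ) ∣ a := fun g =>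
  npr' hco hr g hd 2 (u := a) (v := 0) (u' := 2 * b - 2 * a) (v' := 1) (by ring) (by ring)

lemma D_b (hd : (r : ℤ) ∣ 2 * a ^ 2 - 2 * a * b + b ^ 2) : ¬ (r : ℤ) ∣ a - b := fun g =>
  npr' hco hr g hd 2 (u := -(a - b)) (v := 1) (u' := -(2 * a)) (v' := 1) (by ring) (by ring)

lemma D_c (h2 : ¬ (r : ℤ) ∣ 2) (hd : (r : ℤ) ∣ 2 * a ^ 2 - 2 * a * b + b ^ 2) :
    ¬ (r : ℤ) ∣ 2 * a - b := fun g =>
  h2 (two_of hco hr g hd 2 (u := b) (v := 1) (u' := 2 * b - 4 * a) (v' := 4) (by ring) (by ring))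

lemma D_e (h2 : ¬ (r : ℤ) ∣ 2) (hd : (r : ℤ) ∣ 2 * a ^ 2 - 2 * a * b + b ^ 2) :
    ¬ (r : ℤ) ∣ b := fun g =>
  h2 (two_of hco hr g hd 2 (u := 2 * a - b) (v := 1) (u' := 2 * b) (v' := 0) (by ring) (by ring))

lemma D_f (hd : (r : ℤ) ∣ 2 * a ^ 2 - 2 * a * b + b ^ 2) :
    ¬ (r : ℤ) ∣ 3 * a ^ 2 - 3 * a * b + b ^ 2 := fun g => by
  have hri : Prime (r : ℤ) := Nat.prime_iff_prime_int.mp hr
  have h : (r : ℤ) ∣ a * (a - b) := by
    have := dvd_sub g hd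
    have e : 3 * a ^ 2 - 3 * a * b + b ^ 2 - (2 * a ^ 2 - 2 * a * b + b ^ 2) = a * (a - b) := by
      ring
    rwa [e] at this
  rcases hri.dvd_or_dvd h with h1 | h1
  · exact D_a hco hr hd h1
  · exact D_b hco hr hd h1

lemma F_a (hd : (r : ℤ) ∣ 3 * a ^ 2 - 3 * a * b + b ^ 2) : ¬ (r : ℤ) ∣ a := fun g =>
  npr' hco hr g hd 2 (u := a) (v := 0) (u' := 3 * b - 3 * a) (v' := 1) (by ring) (by ring)

lemma F_b (hd : (r : ℤ) ∣ 3 * a ^ 2 - 3 * a * b + b ^ 2) : ¬ (r : ℤ) ∣ a - b := fun g =>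
  npr' hco hr g hd 2 (u := b - 2 * a) (v := 1) (u' := -(3 * a)) (v' := 1) (by ring) (by ring)

lemma F_c (hd : (r : ℤ) ∣ 3 * a ^ 2 - 3 * a * b + b ^ 2) : ¬ (r : ℤ) ∣ 2 * a - b := fun g =>
  npr' hco hr g hd 2 (u := b - a) (v := 1) (u' := -(3 * (2 * a - b))) (v' := 4) (by ring)
    (by ring)

lemma F_e (h3 : ¬ (r : ℤ) ∣ 3) (hd : (r : ℤ) ∣ 3 * a ^ 2 - 3 * a * b + b ^ 2) :
    ¬ (r : ℤ) ∣ b := fun g =>
  h3 (two_of hco hr g hd 2 (u := 3 * a - b) (v := 1) (u' := 3 * b) (v' := 0) (by ring) (by ring))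

end

lemma two_not {r : ℕ} (hr : r.Prime) (h : r ≠ 2) : ¬ (r : ℤ) ∣ 2 := by
  intro h1
  have h6 : r ∣ 2 := by exact_mod_cast h1
  exact h ((Nat.prime_dvd_prime_iff_eq hr Nat.prime_two).mp h6)

lemma three_not {r : ℕ} (hr : r.Prime) (h : r ≠ 3) : ¬ (r : ℤ) ∣ 3 := by
  intro h1
  have h6 : r ∣ 3 := by exact_mod_cast h1
  exact h ((Nat.prime_dvd_prime_iff_eq hr Nat.prime_three).mp h6)

lemma D_prime {a b : ℤ} (hco : IsCoprime a b) (hb : 0 < b) (ha : a ≠ 0) (hab : a ≠ b)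
    (h2 : 2 * a ≠ b) :
    ∃ r : ℕ, r.Prime ∧ ¬ (r : ℤ) ∣ 2 ∧ (r : ℤ) ∣ 2 * a ^ 2 - 2 * a * b + b ^ 2 := by
  rcases Int.even_or_odd b with ⟨c, hc⟩ | ⟨c, hc⟩
  · -- `b` even
    have hc0 : 0 < c := by omega
    have ha1 : a % 2 = 1 := by
      by_contra h
      have e1 : (2 : ℤ) ∣ a := by omega
      have e2 : (2 : ℤ) ∣ b := by omega
      obtain ⟨u, v, huv⟩ := hco
      have : (2 : ℤ) ∣ 1 := by
        rw [← huv]
        exact dvd_add (dvd_mul_of_dvd_right e1 u) (dvd_mul_of_dvd_right e2 v)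
      omega
    obtain ⟨k, hk⟩ : ∃ k, a = 2 * k + 1 := ⟨a / 2, by omega⟩
    have hne : (a ^ 2 - 2 * a * c + 2 * c ^ 2).natAbs ≠ 1 := by
      intro h
      have h5 : 0 ≤ (a - c) ^ 2 := sq_nonneg _
      have h6 : 1 ≤ c ^ 2 := by nlinarith
      have h7 : a ^ 2 - 2 * a * c + 2 * c ^ 2 = (a - c) ^ 2 + c ^ 2 := by ring
      have h8 : (a - c) ^ 2 + c ^ 2 = 1 := by
        rw [← h7]
        have : 0 < a ^ 2 - 2 * a * c + 2 * c ^ 2 := by rw [h7]; linarith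
        omega
      have h9 : c ^ 2 ≤ 1 := by linarith
      have h10 : c = 1 := by nlinarith
      have h11 : (a - c) ^ 2 = 0 := by rw [h10] at h8 ⊢; linarith
      have h12 : a - c = 0 := by
        exact pow_eq_zero_iff (by norm_num) |>.mp h11
      omega
    obtain ⟨r, hr, hd⟩ := exists_prime hne
    refine ⟨r, hr, ?_, ?_⟩
    · apply two_not hr
      rintro rfl
      have e : a ^ 2 - 2 * a * c + 2 * c ^ 2 = 2 * (2 * k ^ 2 + 2 * k - a * c + c ^ 2) + 1 := by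
        rw [hk]; ring
      rw [e] at hd
      push_cast at hd
      omega
    · have e : 2 * a ^ 2 - 2 * a * b + b ^ 2 = 2 * (a ^ 2 - 2 * a * c + 2 * c ^ 2) := by
        rw [hc]; ring
      rw [e]
      exact dvd_mul_of_dvd_right hd 2
  · -- `b` odd
    have hne : (2 * a ^ 2 - 2 * a * b + b ^ 2).natAbs ≠ 1 := by
      intro h
      have h7 : 2 * a ^ 2 - 2 * a * b + b ^ 2 = a ^ 2 + (a - b) ^ 2 := by ring
      have h5 : 0 < a ^ 2 := by positivity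
      have h6 : 0 < (a - b) ^ 2 := by
        have : a - b ≠ 0 := sub_ne_zero.mpr hab
        positivity
      have h8 : 2 * a ^ 2 - 2 * a * b + b ^ 2 = 1 := by
        have : 0 < 2 * a ^ 2 - 2 * a * b + b ^ 2 := by rw [h7]; linarith
        omega
      rw [h7] at h8
      linarith
    obtain ⟨r, hr, hd⟩ := exists_prime hne
    refine ⟨r, hr, ?_, hd⟩
    apply two_not hr
    rintro rfl
    have e : 2 * a ^ 2 - 2 * a * b + b ^ 2 = 2 * (a ^ 2 - a * b + 2 * c ^ 2 + 2 * c) + 1 := by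
      rw [hc]; ring
    rw [e] at hd
    push_cast at hd
    omega

lemma F_prime {a b : ℤ} (hco : IsCoprime a b) (hb : 0 < b) (ha : a ≠ 0) (hab : a ≠ b)
    (h2 : 2 * a ≠ b) (h3 : 3 * a ≠ b) (h3' : 3 * a ≠ 2 * b) :
    ∃ r : ℕ, r.Prime ∧ ¬ (r : ℤ) ∣ b ∧ (r : ℤ) ∣ 3 * a ^ 2 - 3 * a * b + b ^ 2 := by
  have h44 : 4 * (3 * a ^ 2 - 3 * a * b + b ^ 2) = 3 * (2 * a - b) ^ 2 + b ^ 2 := by ring
  have hsq : 0 < (2 * a - b) ^ 2 := by
    have : 2 * a - b ≠ 0 := sub_ne_zero.mpr h2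
    positivity
  have hb2 : 0 < b ^ 2 := by positivity
  by_cases h3b : (3 : ℤ) ∣ b
  · obtain ⟨c, hc⟩ := h3b
    have hc0 : 0 < c := by omega
    have ha3 : ¬ (3 : ℤ) ∣ a := by
      intro h
      obtain ⟨u, v, huv⟩ := hco
      have : (3 : ℤ) ∣ 1 := by
        rw [← huv]
        exact dvd_add (dvd_mul_of_dvd_right h u) (dvd_mul_of_dvd_right ⟨c, hc⟩ v)
      omega
    have h4 : 4 * (a ^ 2 - 3 * a * c + 3 * c ^ 2) = (2 * a - 3 * c) ^ 2 + 3 * c ^ 2 := by ring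
    have hne : (a ^ 2 - 3 * a * c + 3 * c ^ 2).natAbs ≠ 1 := by
      intro h
      have h5 : 0 ≤ (2 * a - 3 * c) ^ 2 := sq_nonneg _
      have h6 : 1 ≤ c ^ 2 := by nlinarith
      have h8 : a ^ 2 - 3 * a * c + 3 * c ^ 2 = 1 := by
        have : 0 < a ^ 2 - 3 * a * c + 3 * c ^ 2 := by linarith
        omega
      rw [h8] at h4
      have h9 : c ^ 2 ≤ 1 := by linarith
      have h10 : c = 1 := by nlinarith
      subst h10
      have h11 : (a - 1) * (a - 2) = 0 := by linarith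
      rcases mul_eq_zero.mp h11 with h12 | h12
      · omega
      · omega
    obtain ⟨r, hr, hd⟩ := exists_prime hne
    have hF : (r : ℤ) ∣ 3 * a ^ 2 - 3 * a * b + b ^ 2 := by
      have e : 3 * a ^ 2 - 3 * a * b + b ^ 2 = 3 * (a ^ 2 - 3 * a * c + 3 * c ^ 2) := by
        rw [hc]; ring
      rw [e]
      exact dvd_mul_of_dvd_right hd 3
    refine ⟨r, hr, ?_, hF⟩
    apply F_e hco hr _ hF
    apply three_not hr
    rintro rfl
    have hri : Prime ((3 : ℕ) : ℤ) := Nat.prime_iff_prime_int.mp hr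
    have h7 : ((3 : ℕ) : ℤ) ∣ a ^ 2 := by
      have e : a ^ 2 = (a ^ 2 - 3 * a * c + 3 * c ^ 2) + ((3 : ℕ) : ℤ) * (a * c - c ^ 2) := by
        push_cast; ring
      rw [e]
      exact dvd_add hd (dvd_mul_right _ _)
    exact ha3 (by have := hri.dvd_of_dvd_pow h7; exact_mod_cast this)
  · have hne : (3 * a ^ 2 - 3 * a * b + b ^ 2).natAbs ≠ 1 := by
      intro h
      have h8 : 3 * a ^ 2 - 3 * a * b + b ^ 2 = 1 := by
        have : 0 < 3 * a ^ 2 - 3 * a * b + b ^ 2 := by linarith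
        omega
      rw [h8] at h44
      have h9 : b ^ 2 ≤ 1 := by linarith
      have h10 : b = 1 := by nlinarith
      subst h10
      have h11 : a * (a - 1) = 0 := by linarith
      rcases mul_eq_zero.mp h11 with h12 | h12
      · exact ha h12
      · omega
    obtain ⟨r, hr, hd⟩ := exists_prime hne
    refine ⟨r, hr, ?_, hd⟩
    intro g
    have h5 : (r : ℤ) ∣ 3 := two_of hco hr g hd 2 (u := 3 * a - b) (v := 1) (u' := 3 * b)
      (v' := 0) (by ring) (by ring)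
    have h6 : r ∣ 3 := by exact_mod_cast h5
    have h7 := (Nat.prime_dvd_prime_iff_eq hr Nat.prime_three).mp h6
    rw [h7] at g
    exact h3b (by exact_mod_cast g)

/-- the numbers of the curves with a point of order twelve -/
theorem indep12_core {t : ℚ} (h0 : t ≠ 0) (h1 : t ≠ 1) (h12 : 2 * t ≠ 1)
    (e1 : t ≠ -1) (e2 : t ≠ 2) (e3 : 2 * t ≠ -1) (e4 : 2 * t ≠ 3) (e5 : 3 * t ≠ 1)
    (e6 : 3 * t ≠ 2) (e7 : 4 * t ≠ 1) (e8 : 4 * t ≠ 3) (l m n o q : ℤ)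
    (h : t ^ l * (t - 1) ^ m * (2 * t - 1) ^ n * (2 * t ^ 2 - 2 * t + 1) ^ o *
      (3 * t ^ 2 - 3 * t + 1) ^ q = 1) : l = 0 ∧ m = 0 ∧ n = 0 ∧ o = 0 ∧ q = 0 := by
  obtain ⟨a, b, hb, hco, ht⟩ : ∃ a b : ℤ, 0 < b ∧ IsCoprime a b ∧ t = a / b :=
    ⟨t.num, t.den, by exact_mod_cast t.pos, by
      rw [Int.isCoprime_iff_gcd_eq_one]; exact t.reduced, (Rat.num_div_den t).symm⟩
  have hbQ : (b : ℚ) ≠ 0 := by exact_mod_cast hb.ne'
  have cl : ∀ x y : ℤ, (x : ℚ) * t ≠ y → x * a ≠ y * b := by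
    intro x y hxy hxy'
    apply hxy
    rw [ht, ← mul_div_assoc, div_eq_iff hbQ]
    exact_mod_cast hxy'
  have ha : a ≠ 0 := by
    have := cl 1 0 (by simpa using h0)
    omega
  have hab : a ≠ b := by
    have := cl 1 1 (by simpa using h1)
    omega
  have h2ab : 2 * a ≠ b := by
    have := cl 2 1 (by simpa using h12)
    omega
  have h3ab : 3 * a ≠ b := by
    have := cl 3 1 (by simpa using e5)
    omega
  have h3ab' : 3 * a ≠ 2 * b := cl 3 2 (by simpa using e6)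
  have hA0 : a - b ≠ 0 := sub_ne_zero.mpr hab
  have hC0 : 2 * a - b ≠ 0 := sub_ne_zero.mpr h2ab
  have hD0 : 2 * a ^ 2 - 2 * a * b + b ^ 2 ≠ 0 := by
    have e : 2 * a ^ 2 - 2 * a * b + b ^ 2 = a ^ 2 + (a - b) ^ 2 := by ring
    rw [e]; positivity
  have hF0 : 3 * a ^ 2 - 3 * a * b + b ^ 2 ≠ 0 := by
    intro hh
    have e : 4 * (3 * a ^ 2 - 3 * a * b + b ^ 2) = 3 * (2 * a - b) ^ 2 + b ^ 2 := by ring
    have e' : 0 < 3 * (2 * a - b) ^ 2 + b ^ 2 := by positivity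
    rw [hh] at e
    omega
  have k1 : t - 1 = (a - b : ℤ) / b := by rw [ht]; push_cast; field_simp
  have k2 : 2 * t - 1 = (2 * a - b : ℤ) / b := by rw [ht]; push_cast; field_simp
  have k3 : 2 * t ^ 2 - 2 * t + 1 = (2 * a ^ 2 - 2 * a * b + b ^ 2 : ℤ) / (b * b) := by
    rw [ht]; push_cast; field_simp
  have k4 : 3 * t ^ 2 - 3 * t + 1 = (3 * a ^ 2 - 3 * a * b + b ^ 2 : ℤ) / (b * b) := by
    rw [ht]; push_cast; field_simp
  have hH : (a : ℚ) ^ l * ((a - b : ℤ) : ℚ) ^ m * ((2 * a - b : ℤ) : ℚ) ^ n *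
      ((2 * a ^ 2 - 2 * a * b + b ^ 2 : ℤ) : ℚ) ^ o *
        ((3 * a ^ 2 - 3 * a * b + b ^ 2 : ℤ) : ℚ) ^ q *
          (b : ℚ) ^ (-(l + m + n + 2 * o + 2 * q)) = 1 := by
    rw [k1, k2, k3, k4, ht, div_zpow, div_zpow, div_zpow, div_zpow, div_zpow, mul_zpow,
      mul_zpow] at h
    have e2 : ∀ j : ℤ, (b : ℚ) ^ (2 * j) = (b : ℚ) ^ j * (b : ℚ) ^ j := fun j => by
      rw [two_mul, zpow_add₀ hbQ]
    rw [zpow_neg, zpow_add₀ hbQ, zpow_add₀ hbQ, zpow_add₀ hbQ, zpow_add₀ hbQ, e2, e2]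
    rw [← h]
    have a1 := zpow_ne_zero m hbQ
    have a2 := zpow_ne_zero n hbQ
    have a3 := zpow_ne_zero l hbQ
    have a4 := zpow_ne_zero o hbQ
    have a5 := zpow_ne_zero q hbQ
    field_simp
  obtain ⟨r, hr, hr2, hrd⟩ := D_prime hco hb ha hab h2ab
  have ho : o = 0 := by
    refine key6 hr hD0 ha hA0 hC0 hF0 hb.ne' (l := o) (m := l) (n := m) (o := n) (s := q)
      (q := -(l + m + n + 2 * o + 2 * q)) ?_ hrd (D_a hco hr hrd) (D_b hco hr hrd)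
      (D_c hco hr hr2 hrd) (D_f hco hr hrd) (D_e hco hr hr2 hrd)
    rw [← hH]; ring
  obtain ⟨r', hr', hr3, hrf⟩ := F_prime hco hb ha hab h2ab h3ab h3ab'
  have hq : q = 0 := by
    refine key6 hr' hF0 ha hA0 hC0 hD0 hb.ne' (l := q) (m := l) (n := m) (o := n) (s := o)
      (q := -(l + m + n + 2 * o + 2 * q)) ?_ hrf (F_a hco hr' hrf) (F_b hco hr' hrf)
      (F_c hco hr' hrf) (fun g => D_f hco hr' g hrf) hr3
    rw [← hH]; ring
  subst ho hq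
  rw [zpow_zero, zpow_zero, mul_one, mul_one] at h
  obtain ⟨x1, x2, x3⟩ := indep3_rat h0 h1 (by rintro rfl; norm_num at h12)
    ⟨e2, e1, by rintro rfl; norm_num at e5, by rintro rfl; norm_num at e6,
      by rintro rfl; norm_num at e4, by rintro rfl; norm_num at e3,
      by rintro rfl; norm_num at e7, by rintro rfl; norm_num at e8⟩ l m n h
  exact ⟨x1, x2, x3, rfl, rfl⟩

end Pool.Agent.RT
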