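import Pool.Agent.Lib_helper99.RT.B

/-!
# Points of order ten: the rational parameters
-/

set_option autoImplicit false
set_option linter.unusedSectionVars false

namespace Pool.Agent.RT

open Pool.Agent.FK4 (root_rat val_not val_dvd exists_prime dvd_one_absurd indep3_rat)

section

variable {a b : ℤ} (hco : IsCoprime a b) {r : ℕ} (hr : r.Prime)

include hco hr

lemma ab_no (h1 : (r : ℤ) ∣ a) (h2 : (r : ℤ) ∣ b) : False := npr hco hr h1 h2

lemma a_B (h1 : (r : ℤ) ∣ a) : ¬ (r : ℤ) ∣ a - b := fun g =>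
  npr' hco hr h1 g 1 (u := 1) (v := 0) (u' := 1) (v' := -1) (by ring) (by ring)

lemma a_C (h1 : (r : ℤ) ∣ a) : ¬ (r : ℤ) ∣ 2 * a - b := fun g =>
  npr' hco hr h1 g 1 (u := 1) (v := 0) (u' := 2) (v' := -1) (by ring) (by ring)

lemma a_D (h1 : (r : ℤ) ∣ a) : ¬ (r : ℤ) ∣ a ^ 2 - 3 * a * b + b ^ 2 := fun g =>
  npr' hco hr h1 g 2 (u := a) (v := 0) (u' := 3 * b - a) (v' := 1) (by ring) (by ring)

lemma B_C (h1 : (r : ℤ) ∣ a - b) : ¬ (r : ℤ) ∣ 2 * a - b := fun g =>
  npr' hco hr h1 g 1 (u := -1) (v := 1) (u' := -2) (v' := 1) (by ring) (by ring)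

lemma B_D (h1 : (r : ℤ) ∣ a - b) : ¬ (r : ℤ) ∣ a ^ 2 - 3 * a * b + b ^ 2 := fun g =>
  npr' hco hr h1 g 2 (u := 2 * a - b) (v := -1) (u' := -(a + b) + (2 * a - b)) (v' := -1)
    (by ring) (by ring)

lemma B_E (h1 : (r : ℤ) ∣ a - b) : ¬ (r : ℤ) ∣ b := fun g =>
  npr' hco hr h1 g 1 (u := 1) (v := 1) (u' := 0) (v' := 1) (by ring) (by ring)

lemma C_D (h1 : (r : ℤ) ∣ 2 * a - b) : ¬ (r : ℤ) ∣ a ^ 2 - 3 * a * b + b ^ 2 := fun g =>
  npr' hco hr h1 g 2 (u := a - b) (v := -1) (u' := 2 * a - 5 * b) (v' := -4)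
    (by ring) (by ring)

lemma C_E (h2 : ¬ (r : ℤ) ∣ 2) (h1 : (r : ℤ) ∣ 2 * a - b) : ¬ (r : ℤ) ∣ b := fun g =>
  h2 (two_of hco hr h1 g 1 (u := 1) (v := 1) (u' := 0) (v' := 2) (by ring) (by ring))

lemma D_E (h1 : (r : ℤ) ∣ a ^ 2 - 3 * a * b + b ^ 2) : ¬ (r : ℤ) ∣ b := fun g =>
  npr' hco hr h1 g 2 (u := 1) (v := 3 * a - b) (u' := 0) (v' := b) (by ring) (by ring)

end

lemma sq_ne_six (x : ℤ) : x ^ 2 ≠ 6 := by
  intro h
  have h1 : x ≤ 2 := by nlinarith
  have h2 : -2 ≤ x := by nlinarith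
  interval_cases x <;> omega

lemma one_of {z : ℤ} (h : z.natAbs = 1) : z = 1 ∨ z = -1 :=
  Int.natAbs_eq_natAbs_iff.mp (by rw [h]; rfl)

/-- the value one of the quadratic form, the first number -/
lemma D_A {a b : ℤ} (hb : 0 < b) (hD : a ^ 2 - 3 * a * b + b ^ 2 = 1 ∨
    a ^ 2 - 3 * a * b + b ^ 2 = -1) (hab : a ≠ b) (h2 : 2 * a ≠ b) (h3 : 3 * a ≠ b) :
    a.natAbs ≠ 1 := by
  intro h
  rcases one_of h with rfl | rfl
  · rcases hD with hD | hD
    · have : b * (b - 3) = 0 := by linarith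
      rcases mul_eq_zero.mp this with h4 | h4 <;> omega
    · have : (b - 1) * (b - 2) = 0 := by linarith
      rcases mul_eq_zero.mp this with h4 | h4 <;> omega
  · rcases hD with hD | hD <;> nlinarith

/-- the second number -/
lemma D_B {a b : ℤ} (hb : 0 < b) (hD : a ^ 2 - 3 * a * b + b ^ 2 = 1 ∨
    a ^ 2 - 3 * a * b + b ^ 2 = -1) (ha : a ≠ 0) (h2 : 2 * a ≠ b) (h3 : a ≠ 2 * b) :
    (a - b).natAbs ≠ 1 := by
  intro h
  rcases one_of h with h | h
  · have e : a = b + 1 := by omega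
    subst e
    rcases hD with hD | hD
    · have : b * (b + 1) = 0 := by linarith
      rcases mul_eq_zero.mp this with h4 | h4 <;> omega
    · have : (b - 1) * (b + 2) = 0 := by linarith
      rcases mul_eq_zero.mp this with h4 | h4 <;> omega
  · obtain ⟨c, hc⟩ : ∃ c, b = c + 1 := ⟨b - 1, by omega⟩
    have e : a = c := by omega
    subst e
    subst hc
    rcases hD with hD | hD
    · have : a * (a + 1) = 0 := by linarith
      rcases mul_eq_zero.mp this with h4 | h4 <;> omega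
    · have : (a - 1) * (a + 2) = 0 := by linarith
      rcases mul_eq_zero.mp this with h4 | h4 <;> omega

/-- the third number -/
lemma D_C {a b : ℤ} (hb : 0 < b) (hD : a ^ 2 - 3 * a * b + b ^ 2 = 1 ∨
    a ^ 2 - 3 * a * b + b ^ 2 = -1) (ha : a ≠ 0) (hab : a ≠ b) (h3 : 3 * a ≠ b)
    (h5 : 5 * a ≠ 2 * b) : (2 * a - b).natAbs ≠ 1 := by
  intro h
  rcases one_of h with h | h
  · have e : b = 2 * a - 1 := by omega
    subst e
    rcases hD with hD | hD
    · have : a * (a + 1) = 0 := by linarith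
      rcases mul_eq_zero.mp this with h4 | h4 <;> omega
    · have : (a - 1) * (a + 2) = 0 := by linarith
      rcases mul_eq_zero.mp this with h4 | h4 <;> omega
  · have e : b = 2 * a + 1 := by omega
    subst e
    rcases hD with hD | hD
    · have : a * (a - 1) = 0 := by linarith
      rcases mul_eq_zero.mp this with h4 | h4 <;> omega
    · have : (a + 1) * (a - 2) = 0 := by linarith
      rcases mul_eq_zero.mp this with h4 | h4 <;> omega

/-- the denominator -/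
lemma D_1 {a b : ℤ} (hD : a ^ 2 - 3 * a * b + b ^ 2 = 1 ∨
    a ^ 2 - 3 * a * b + b ^ 2 = -1) (ha : a ≠ 0) (hab : a ≠ b) (h3 : a ≠ 3 * b)
    (h5 : a ≠ 2 * b) : b ≠ 1 := by
  rintro rfl
  rcases hD with hD | hD
  · have : a * (a - 3) = 0 := by linarith
    rcases mul_eq_zero.mp this with h4 | h4 <;> omega
  · have : (a - 1) * (a - 2) = 0 := by linarith
    rcases mul_eq_zero.mp this with h4 | h4 <;> omega

lemma D_2 {a b : ℤ} (hD : a ^ 2 - 3 * a * b + b ^ 2 = 1 ∨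
    a ^ 2 - 3 * a * b + b ^ 2 = -1) (h2 : 2 * a ≠ b) (h5 : 2 * a ≠ 5 * b) : b ≠ 2 := by
  rintro rfl
  rcases hD with hD | hD
  · apply sq_ne_six (a - 3)
    linarith
  · have : (a - 1) * (a - 5) = 0 := by linarith
    rcases mul_eq_zero.mp this with h4 | h4 <;> omega

lemma D_C2 {a b : ℤ} (hb : 0 < b) (hD : a ^ 2 - 3 * a * b + b ^ 2 = 1 ∨
    a ^ 2 - 3 * a * b + b ^ 2 = -1) (h8 : 8 * a ≠ 3 * b) : (2 * a - b).natAbs ≠ 2 := by
  intro h
  have h' : 2 * a - b = 2 ∨ 2 * a - b = -2 := by omega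
  rcases h' with h | h
  · have e : b = 2 * a - 2 := by omega
    subst e
    rcases hD with hD | hD
    · have : (a + 3) * (a - 1) = 0 := by linarith
      rcases mul_eq_zero.mp this with h4 | h4 <;> omega
    · apply sq_ne_six (a + 1)
      linarith
  · have e : b = 2 * a + 2 := by omega
    subst e
    rcases hD with hD | hD
    · have : (a - 3) * (a + 1) = 0 := by linarith
      rcases mul_eq_zero.mp this with h4 | h4 <;> omega
    · apply sq_ne_six (a - 1)
      linarith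

end Pool.Agent.RT
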